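import Mathlib

set_option autoImplicit false

namespace Pool.Agent.Lib.MP_df7c80_co

open SimpleGraph

/-- There is a simple path with `k` edges from `u` to `w` in `G` avoiding `S`. -/
def PathProp {V : Type} (G : SimpleGraph V) (k : ℕ) (u w : V) (S : List V) : Prop :=
  ∃ p : ℕ → V, p 0 = u ∧ p k = w ∧ (∀ i, i < k → G.Adj (p i) (p (i + 1))) ∧
    (∀ i j, i ≤ k → j ≤ k → p i = p j → i = j) ∧ ∀ i, i ≤ k → p i ∉ S

/-- Search for a simple path. -/
def reach {V : Type} [DecidableEq V] (nbrs : V → List V) : ℕ → V → V → List V → Bool
  | 0, u, w, S => decide (u = w) && !(S.contains u)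
  | k + 1, u, w, S => !(S.contains u) && (nbrs u).any (fun x => reach nbrs k x w (u :: S))

lemma reach_iff {V : Type} [DecidableEq V] (G : SimpleGraph V) (nbrs : V → List V)
    (hn : ∀ u v, v ∈ nbrs u ↔ G.Adj u v) (k : ℕ) : ∀ (u w : V) (S : List V),
    reach nbrs k u w S = true ↔ PathProp G k u w S := by
  induction k with
  | zero =>
    intro u w S
    unfold reach
    simp only [Bool.and_eq_true, decide_eq_true_eq, Bool.not_eq_true', List.contains_eq_mem,
      decide_eq_false_iff_not]
    constructor
    · rintro ⟨rfl, h⟩
      exact ⟨fun _ => u, rfl, rfl, fun i hi => absurd hi (by omega), fun i j hi hj _ => by omega,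
        fun _ _ => h⟩
    · rintro ⟨p, h0, h1, _, _, h2⟩
      exact ⟨h0.symm.trans h1, h0 ▸ h2 0 le_rfl⟩
  | succ k ih =>
    intro u w S
    unfold reach
    simp only [Bool.and_eq_true, Bool.not_eq_true', List.contains_eq_mem,
      decide_eq_false_iff_not, List.any_eq_true]
    constructor
    · rintro ⟨hu, x, hx, hr⟩
      rw [ih] at hr
      obtain ⟨p, h0, h1, h2, h3, h4⟩ := hr
      refine ⟨fun i => if i = 0 then u else p (i - 1), by simp, by simpa using h1, ?_, ?_, ?_⟩
      · intro i hi
        rcases Nat.eq_zero_or_pos i with rfl | hpos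
        · simp only [if_true, Nat.zero_add, Nat.one_ne_zero, if_false, Nat.sub_self, h0]
          exact (hn u x).1 hx
        · have e1 : i ≠ 0 := by omega
          have e2 : i + 1 ≠ 0 := by omega
          simp only [e1, e2, if_false]
          have := h2 (i - 1) (by omega)
          have e3 : i - 1 + 1 = i + 1 - 1 := by omega
          rwa [e3] at this
      · intro i j hi hj hij
        rcases Nat.eq_zero_or_pos i with rfl | hpos <;> rcases Nat.eq_zero_or_pos j with rfl | hpos'
        · rfl
        · have e2 : j ≠ 0 := by omega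
          simp only [e2, if_true, if_false] at hij
          have := h4 (j - 1) (by omega)
          rw [← hij] at this
          simp at this
        · have e2 : i ≠ 0 := by omega
          simp only [e2, if_true, if_false] at hij
          have := h4 (i - 1) (by omega)
          rw [hij] at this
          simp at this
        · have e1 : i ≠ 0 := by omega
          have e2 : j ≠ 0 := by omega
          simp only [e1, e2, if_false] at hij
          have := h3 (i - 1) (j - 1) (by omega) (by omega) hij
          omega
      · intro i hi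
        rcases Nat.eq_zero_or_pos i with rfl | hpos
        · simpa using hu
        · have e1 : i ≠ 0 := by omega
          simp only [e1, if_false]
          have := h4 (i - 1) (by omega)
          simp only [List.mem_cons, not_or] at this
          exact this.2
    · rintro ⟨p, h0, h1, h2, h3, h4⟩
      refine ⟨h0 ▸ h4 0 (Nat.zero_le _), p 1, ?_, ?_⟩
      · rw [hn, ← h0]
        exact h2 0 (by omega)
      · rw [ih]
        refine ⟨fun i => p (i + 1), rfl, h1, fun i hi => h2 (i + 1) (by omega), ?_, ?_⟩
        · intro i j hi hj hij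
          have := h3 (i + 1) (j + 1) (by omega) (by omega) hij
          omega
        · intro i hi
          simp only [List.mem_cons, not_or]
          refine ⟨?_, h4 (i + 1) (by omega)⟩
          intro h
          rw [← h0] at h
          have := h3 (i + 1) 0 (by omega) (by omega) h
          omega

/-- A copy of a cycle of length `n + 2` gives a simple path with `n + 1` edges with adjacent ends. -/
lemma path_of_cycle {V : Type} (G : SimpleGraph V) (n : ℕ) (h : (cycleGraph (n + 2)) ⊑ G) :
    ∃ u w, G.Adj u w ∧ PathProp G (n + 1) u w [] := by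
  obtain ⟨f⟩ := h
  have hinj : Function.Injective f := f.injective
  have hadj : ∀ a b : Fin (n + 2), (cycleGraph (n + 2)).Adj a b → G.Adj (f a) (f b) :=
    fun a b hab => f.toHom.map_adj hab
  refine ⟨f 0, f (Fin.last (n + 1)), ?_, fun i => f (Fin.ofNat (n + 2) i), ?_, ?_, ?_, ?_, ?_⟩
  · apply hadj
    rw [cycleGraph_adj]
    left
    rw [sub_eq_iff_eq_add]
    apply Fin.ext
    have e : 1 + (n + 1) = n + 2 := by omega
    simp [Fin.val_add, e]
  · simp
  · change f (Fin.ofNat (n + 2) (n + 1)) = f (Fin.last (n + 1))
    congr 1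
    apply Fin.ext
    simp [Fin.val_last]
  · intro i hi
    apply hadj
    rw [cycleGraph_adj]
    right
    rw [sub_eq_iff_eq_add]
    apply Fin.ext
    simp [Fin.val_add, Nat.add_comm]
  · intro i j hi hj hij
    have := hinj hij
    have h1 := congrArg Fin.val this
    simpa [Nat.mod_eq_of_lt (show i < n + 2 by omega), Nat.mod_eq_of_lt (show j < n + 2 by omega)]
      using h1
  · intro i _
    simp

lemma cycle_of_path {V : Type} (G : SimpleGraph V) (n : ℕ) (x y : V) (hxy : x ≠ y)
    (h : PathProp G (n + 1) x y []) : (cycleGraph (n + 2)) ⊑ (G ⊔ edge x y) := by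
  obtain ⟨p, h0, h1, h2, h3, _⟩ := h
  have hedge : (G ⊔ edge x y).Adj x y := by
    rw [sup_adj]
    right
    rw [edge_adj]
    exact ⟨Or.inl ⟨rfl, rfl⟩, hxy⟩
  have key : ∀ a b : Fin (n + 2), b = 1 + a → (G ⊔ edge x y).Adj (p a) (p b) := by
    intro a b hab
    by_cases ha : (a : ℕ) = n + 1
    · have hb : (b : ℕ) = 0 := by
        have e : 1 + (n + 1) = n + 2 := by omega
        rw [hab, Fin.val_add, ha]
        simp [e]
      rw [ha, hb, h0, h1]
      exact hedge.symm
    · have hlt : (a : ℕ) + 1 < n + 2 := by have := a.isLt; omega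
      have hb : (b : ℕ) = a + 1 := by
        rw [hab, Fin.val_add, Fin.val_one, Nat.add_comm, Nat.mod_eq_of_lt hlt]
      rw [hb, sup_adj]
      left
      exact h2 a (by omega)
  refine ⟨⟨⟨fun i => p i, ?_⟩, ?_⟩⟩
  · intro a b hab
    rw [cycleGraph_adj] at hab
    rcases hab with hab | hab
    · rw [sub_eq_iff_eq_add] at hab
      exact (key b a hab).symm
    · rw [sub_eq_iff_eq_add] at hab
      exact key a b hab
  · intro a b hab
    have := h3 a b (by have := a.isLt; omega) (by have := b.isLt; omega) hab
    exact Fin.ext this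

end Pool.Agent.Lib.MP_df7c80_co
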